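import Pool.Agent.Helper38.XF.Spec

/-!
XF part ULT: properties of the ultrapower.
-/

set_option autoImplicit false

noncomputable section

namespace Pool.Agent.Helper77.XF.ULT

open Pool.Agent.Helper38.XF Filter

variable {K : Type} [Field K]

/-- the germ of a sequence -/
abbrev gm (K : Type) [Field K] : (ℕ → K) →+* UP K :=
  Filter.Germ.coeRingHom (Filter.hyperfilter ℕ : Filter ℕ)

lemma gm_surj : Function.Surjective (gm K) := by
  intro x
  induction x using Filter.Germ.inductionOn with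
  | _ f => exact ⟨f, rfl⟩

lemma gm_eq {f g : ℕ → K} : gm K f = gm K g ↔ ∀ᶠ n in (hyperfilter ℕ : Filter ℕ), f n = g n :=
  Filter.Germ.coe_eq

lemma gm_zero {f : ℕ → K} : gm K f = 0 ↔ ∀ᶠ n in (hyperfilter ℕ : Filter ℕ), f n = 0 := by
  rw [← map_zero (gm K), gm_eq]
  rfl

lemma gm_ne {f : ℕ → K} : gm K f ≠ 0 ↔ ∀ᶠ n in (hyperfilter ℕ : Filter ℕ), f n ≠ 0 := by
  rw [ne_eq, gm_zero, Ultrafilter.eventually_not]

/-- the ultrapower of the valuation ring -/
def Ou (O : ValuationSubring K) : ValuationSubring (UP K) where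
  carrier := {x | Filter.Germ.LiftPred (· ∈ O) x}
  mul_mem' := by
    intro x y hx hy
    obtain ⟨f, rfl⟩ := gm_surj x
    obtain ⟨g, rfl⟩ := gm_surj y
    have h : ∀ᶠ n in (hyperfilter ℕ : Filter ℕ), f n * g n ∈ O := by
      filter_upwards [Filter.Germ.liftPred_coe.1 hx, Filter.Germ.liftPred_coe.1 hy] with n h1 h2
      exact O.mul_mem _ _ h1 h2
    change Filter.Germ.LiftPred (· ∈ O) (gm K f * gm K g)
    rw [← map_mul]
    exact Filter.Germ.liftPred_coe.2 h
  one_mem' := by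
    change Filter.Germ.LiftPred (· ∈ O) (1 : UP K)
    rw [← map_one (gm K)]
    exact Filter.Germ.liftPred_coe.2 (Filter.Eventually.of_forall fun _ => O.one_mem)
  add_mem' := by
    intro x y hx hy
    obtain ⟨f, rfl⟩ := gm_surj x
    obtain ⟨g, rfl⟩ := gm_surj y
    have h : ∀ᶠ n in (hyperfilter ℕ : Filter ℕ), f n + g n ∈ O := by
      filter_upwards [Filter.Germ.liftPred_coe.1 hx, Filter.Germ.liftPred_coe.1 hy] with n h1 h2
      exact O.add_mem _ _ h1 h2
    change Filter.Germ.LiftPred (· ∈ O) (gm K f + gm K g)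
    rw [← map_add]
    exact Filter.Germ.liftPred_coe.2 h
  zero_mem' := by
    change Filter.Germ.LiftPred (· ∈ O) (0 : UP K)
    rw [← map_zero (gm K)]
    exact Filter.Germ.liftPred_coe.2 (Filter.Eventually.of_forall fun _ => O.zero_mem)
  neg_mem' := by
    intro x hx
    obtain ⟨f, rfl⟩ := gm_surj x
    have h : ∀ᶠ n in (hyperfilter ℕ : Filter ℕ), -f n ∈ O := by
      filter_upwards [Filter.Germ.liftPred_coe.1 hx] with n h1
      exact O.neg_mem _ h1
    change Filter.Germ.LiftPred (· ∈ O) (-gm K f)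
    rw [← map_neg]
    exact Filter.Germ.liftPred_coe.2 h
  mem_or_inv_mem' := by
    intro x
    obtain ⟨f, rfl⟩ := gm_surj x
    have h : ∀ᶠ n in (hyperfilter ℕ : Filter ℕ), f n ∈ O ∨ (f n)⁻¹ ∈ O :=
      Filter.Eventually.of_forall fun n => O.mem_or_inv_mem (f n)
    rcases Ultrafilter.eventually_or.1 h with h | h
    · exact Or.inl (Filter.Germ.liftPred_coe.2 h)
    · refine Or.inr ?_
      change Filter.Germ.LiftPred (· ∈ O) ((f : UP K)⁻¹)
      rw [← Filter.Germ.coe_inv]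
      exact Filter.Germ.liftPred_coe.2 h

lemma mem_Ou {O : ValuationSubring K} {f : ℕ → K} :
    gm K f ∈ Ou O ↔ ∀ᶠ n in (hyperfilter ℕ : Filter ℕ), f n ∈ O := by
  change Filter.Germ.LiftPred (· ∈ O) (f : UP K) ↔ _
  exact Filter.Germ.liftPred_coe

lemma near_iff {O : ValuationSubring K} {e f g : ℕ → K} :
    Near (Ou O) (gm K e) (gm K f) (gm K g) ↔
      ∀ᶠ n in (hyperfilter ℕ : Filter ℕ), Near O (e n) (f n) (g n) := by
  constructor
  · rintro ⟨z, hz, h⟩
    obtain ⟨Z, rfl⟩ := gm_surj z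
    rw [← map_sub, ← map_mul, gm_eq] at h
    filter_upwards [h, mem_Ou.1 hz] with n h1 h2
    exact ⟨Z n, h2, h1⟩
  · intro h
    classical
    have hch : ∀ n, ∃ z : K, z ∈ O ∧ (Near O (e n) (f n) (g n) → f n - g n = e n * z) := by
      intro n
      by_cases hn : Near O (e n) (f n) (g n)
      · obtain ⟨z, hz, h1⟩ := hn
        exact ⟨z, hz, fun _ => h1⟩
      · exact ⟨0, O.zero_mem, fun h1 => absurd h1 hn⟩
    choose Z hZ hZ2 using hch
    refine ⟨gm K Z, mem_Ou.2 (Filter.Eventually.of_forall hZ), ?_⟩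
    rw [← map_sub, ← map_mul, gm_eq]
    filter_upwards [h] with n h1
    exact hZ2 n h1

lemma sum_gm (s : Finset ℕ) (C : ℕ → ℕ → K) (A : ℕ → K) :
    ∑ i ∈ s, gm K (C i) * gm K A ^ i = gm K (fun n => ∑ i ∈ s, C i n * A n ^ i) := by
  have : (fun n => ∑ i ∈ s, C i n * A n ^ i) = ∑ i ∈ s, C i * A ^ i := by
    funext n; simp [Finset.sum_apply]
  rw [this, map_sum]
  simp only [map_mul, map_pow]

lemma sum_gm' (s : Finset ℕ) (C : ℕ → ℕ → K) (A : ℕ → K) :
    ∑ i ∈ s, (i : UP K) * gm K (C i) * gm K A ^ (i - 1)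
      = gm K (fun n => ∑ i ∈ s, (i : K) * C i n * A n ^ (i - 1)) := by
  have : (fun n => ∑ i ∈ s, (i : K) * C i n * A n ^ (i - 1))
      = ∑ i ∈ s, (i : ℕ → K) * C i * A ^ (i - 1) := by
    funext n; simp [Finset.sum_apply]
  rw [this, map_sum]
  simp only [map_mul, map_pow, map_natCast]

lemma hens_Ou {O : ValuationSubring K} (hO : Hens O) : Hens (Ou O) := by
  classical
  intro d c a e he h0 h1
  have hc : ∀ i, ∃ f, gm K f = c i := fun i => gm_surj (c i)
  choose C hC using hc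
  obtain ⟨A, rfl⟩ := gm_surj a
  obtain ⟨E, rfl⟩ := gm_surj e
  obtain rfl : (fun i => gm K (C i)) = c := funext hC
  simp only at h0 h1
  rw [sum_gm, gm_zero] at h0
  rw [sum_gm', gm_ne] at h1
  have hE := gm_ne.1 he
  -- the choice of `δ`
  have hch : ∀ n, ∃ δ : K, δ ≠ 0 ∧ (E n ≠ 0 →
      ∑ i ∈ Finset.range (d + 1), C i n * A n ^ i = 0 →
      ∑ i ∈ Finset.range (d + 1), (i : K) * C i n * A n ^ (i - 1) ≠ 0 →
      ∀ c' : ℕ → K, (∀ i ≤ d, Near O δ (c' i) (C i n)) →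
        ∃ a', Near O (E n) a' (A n) ∧ ∑ i ∈ Finset.range (d + 1), c' i * a' ^ i = 0) := by
    intro n
    by_cases hn : E n ≠ 0 ∧ ∑ i ∈ Finset.range (d + 1), C i n * A n ^ i = 0 ∧
        ∑ i ∈ Finset.range (d + 1), (i : K) * C i n * A n ^ (i - 1) ≠ 0
    · obtain ⟨δ, hδ, h⟩ := hO d (fun i => C i n) (A n) (E n) hn.1 hn.2.1 hn.2.2
      exact ⟨δ, hδ, fun _ _ _ => h⟩
    · exact ⟨1, one_ne_zero, fun h1 h2 h3 => absurd ⟨h1, h2, h3⟩ hn⟩
  choose δ hδ hδ2 using hch
  refine ⟨gm K δ, gm_ne.2 (Filter.Eventually.of_forall hδ), ?_⟩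
  intro c' hc'
  have hc2 : ∀ i, ∃ f, gm K f = c' i := fun i => gm_surj (c' i)
  choose C' hC' using hc2
  obtain rfl : (fun i => gm K (C' i)) = c' := funext hC'
  have hnear : ∀ᶠ n in (hyperfilter ℕ : Filter ℕ), ∀ i ∈ Finset.range (d + 1),
      Near O (δ n) (C' i n) (C i n) := by
    rw [Filter.eventually_all_finset]
    intro i hi
    exact near_iff.1 (hc' i (by simpa [Nat.lt_succ_iff] using hi))
  have hch2 : ∀ n, ∃ a' : K, (E n ≠ 0 →
      ∑ i ∈ Finset.range (d + 1), C i n * A n ^ i = 0 →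
      ∑ i ∈ Finset.range (d + 1), (i : K) * C i n * A n ^ (i - 1) ≠ 0 →
      (∀ i ∈ Finset.range (d + 1), Near O (δ n) (C' i n) (C i n)) →
      Near O (E n) a' (A n) ∧ ∑ i ∈ Finset.range (d + 1), C' i n * a' ^ i = 0) := by
    intro n
    by_cases hn : E n ≠ 0 ∧ ∑ i ∈ Finset.range (d + 1), C i n * A n ^ i = 0 ∧
        ∑ i ∈ Finset.range (d + 1), (i : K) * C i n * A n ^ (i - 1) ≠ 0 ∧
        ∀ i ∈ Finset.range (d + 1), Near O (δ n) (C' i n) (C i n)
    · obtain ⟨a', ha', h⟩ := hδ2 n hn.1 hn.2.1 hn.2.2.1 (fun i => C' i n)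
        (fun i hi => hn.2.2.2 i (Finset.mem_range.2 (Nat.lt_succ_of_le hi)))
      exact ⟨a', fun _ _ _ _ => ⟨ha', h⟩⟩
    · exact ⟨0, fun h1 h2 h3 h4 => absurd ⟨h1, h2, h3, h4⟩ hn⟩
  choose A' hA' using hch2
  refine ⟨gm K A', ?_, ?_⟩
  · rw [near_iff]
    filter_upwards [hE, h0, h1, hnear] with n g1 g2 g3 g4
    exact (hA' n g1 g2 g3 g4).1
  · simp only
    rw [sum_gm, gm_zero]
    filter_upwards [hE, h0, h1, hnear] with n g1 g2 g3 g4
    exact (hA' n g1 g2 g3 g4).2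

lemma sum_fin (p : ℕ) (C : Fin p → ℕ → K) (t : K) :
    ∑ i, gm K (C i) ^ p * (t : UP K) ^ (i : ℕ)
      = gm K (fun n => ∑ i, C i n ^ p * t ^ (i : ℕ)) := by
  have h1 : (t : UP K) = gm K (fun _ => t) := rfl
  have : (fun n => ∑ i, C i n ^ p * t ^ (i : ℕ)) = ∑ i, C i ^ p * (fun _ => t) ^ (i : ℕ) := by
    funext n; simp [Finset.sum_apply]
  rw [this, map_sum, h1]
  simp only [map_mul, map_pow]

/-- XF part ULT -/
theorem main : Pool.Agent.Helper38.XF.St_ULT := by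
  classical
  intro p hp K _ _ O t hO hP
  refine ⟨?_, ⟨?_, ?_⟩, Ou O, hens_Ou hO, fun f => mem_Ou⟩
  · have hinj : Function.Injective ((gm K).comp (Pi.constRingHom ℕ K)) :=
      RingHom.injective _
    exact charP_of_injective_ringHom hinj p
  · intro z
    obtain ⟨f, rfl⟩ := gm_surj z
    have hch := fun n => hP.1 (f n)
    choose c hc using hch
    refine ⟨fun i => gm K (fun n => c n i), ?_⟩
    rw [sum_fin, gm_eq]
    exact Filter.Eventually.of_forall hc
  · intro c hc i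
    have hc2 : ∀ i, ∃ f, gm K f = c i := fun i => gm_surj (c i)
    choose C hC using hc2
    obtain rfl : (fun i => gm K (C i)) = c := funext hC
    simp only at hc ⊢
    rw [sum_fin, gm_zero] at hc
    rw [gm_zero]
    filter_upwards [hc] with n hn
    exact hP.2 (fun i => C i n) hn i

end Pool.Agent.Helper77.XF.ULT

end
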